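import Pool.Agent.Y731.FG.Stm

set_option autoImplicit false

namespace Pool.Agent.Y430.FG

/-- the sum of the positive parts of the negatives of the linear form `v` -/
def gg {t : ℕ} {Q : Type} (T : Finset Q) (o : Q → Fin t → ℤ) (v : Fin t → ℤ) : ℤ :=
  ∑ P ∈ T, max (-∑ j, v j * o P j) 0

theorem gg_add {t : ℕ} {Q : Type} (T : Finset Q) (o : Q → Fin t → ℤ) (v w : Fin t → ℤ) :
    gg T o (v + w) ≤ gg T o v + gg T o w := by
  unfold gg
  rw [← Finset.sum_add_distrib]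
  refine Finset.sum_le_sum fun P _ => ?_
  have h : ∑ j, (v + w) j * o P j = ∑ j, v j * o P j + ∑ j, w j * o P j := by
    rw [← Finset.sum_add_distrib]
    refine Finset.sum_congr rfl fun j _ => ?_
    rw [Pi.add_apply, add_mul]
  rw [h]
  omega

theorem gg_neg {t : ℕ} {Q : Type} (T : Finset Q) (o : Q → Fin t → ℤ)
    (ho : ∀ j, ∑ P ∈ T, o P j = 0) (v : Fin t → ℤ) :
    gg T o (-v) = gg T o v := by
  unfold gg
  have h0 : ∑ P ∈ T, ∑ j, v j * o P j = 0 := by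
    rw [Finset.sum_comm]
    refine Finset.sum_eq_zero fun j _ => ?_
    rw [← Finset.mul_sum, ho j, mul_zero]
  have h : ∀ P, ∑ j, (-v) j * o P j = -∑ j, v j * o P j := by
    intro P
    rw [← Finset.sum_neg_distrib]
    refine Finset.sum_congr rfl fun j _ => ?_
    rw [Pi.neg_apply, neg_mul]
  have h1 : ∀ P, max (-∑ j, (-v) j * o P j) 0 =
      max (-∑ j, v j * o P j) 0 + ∑ j, v j * o P j := by
    intro P
    rw [h]
    omega
  rw [Finset.sum_congr rfl fun P _ => h1 P, Finset.sum_add_distrib, h0, add_zero]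

/-- the bound for one difference of exponents -/
theorem gg_diff {t : ℕ} {Q : Type} (T : Finset Q) (o : Q → Fin t → ℤ)
    (ho : ∀ j, ∑ P ∈ T, o P j = 0) (Mo : Finset (Fin t →₀ ℕ)) (hMo : Mo.Nonempty)
    {s s' : Fin t →₀ ℕ} (hs : s ∈ Mo) (hs' : s' ∈ Mo) :
    gg T o (fun l => (s l : ℤ) - s' l) ≤
      -∑ P ∈ T, Mo.inf' hMo (fun s => ∑ j, (s j : ℤ) * o P j) := by
  have h0 : ∑ P ∈ T, ∑ j, (s' j : ℤ) * o P j = 0 := by
    rw [Finset.sum_comm]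
    refine Finset.sum_eq_zero fun j _ => ?_
    rw [← Finset.mul_sum, ho j, mul_zero]
  have h1 : -∑ P ∈ T, Mo.inf' hMo (fun s => ∑ j, (s j : ℤ) * o P j) =
      ∑ P ∈ T, (∑ j, (s' j : ℤ) * o P j - Mo.inf' hMo (fun s => ∑ j, (s j : ℤ) * o P j)) := by
    rw [Finset.sum_sub_distrib, h0, zero_sub]
  rw [h1]
  unfold gg
  refine Finset.sum_le_sum fun P _ => ?_
  have h2 : ∑ j, ((s j : ℤ) - s' j) * o P j =
      ∑ j, (s j : ℤ) * o P j - ∑ j, (s' j : ℤ) * o P j := by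
    rw [← Finset.sum_sub_distrib]
    refine Finset.sum_congr rfl fun j _ => ?_
    rw [sub_mul]
  have h3 := Finset.inf'_le (fun s : Fin t →₀ ℕ => ∑ j, (s j : ℤ) * o P j) hs
  have h4 := Finset.inf'_le (fun s : Fin t →₀ ℕ => ∑ j, (s j : ℤ) * o P j) hs'
  rw [h2]
  omega

theorem inf_nonneg {t : ℕ} {Q : Type} (T : Finset Q) (o : Q → Fin t → ℤ)
    (ho : ∀ j, ∑ P ∈ T, o P j = 0) (Mo : Finset (Fin t →₀ ℕ)) (hMo : Mo.Nonempty) :
    0 ≤ -∑ P ∈ T, Mo.inf' hMo (fun s => ∑ j, (s j : ℤ) * o P j) := by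
  obtain ⟨s, hs⟩ := hMo
  have h0 : ∑ P ∈ T, ∑ j, (s j : ℤ) * o P j = 0 := by
    rw [Finset.sum_comm]
    refine Finset.sum_eq_zero fun j _ => ?_
    rw [← Finset.mul_sum, ho j, mul_zero]
  have h1 : ∑ P ∈ T, Mo.inf' ⟨s, hs⟩ (fun s => ∑ j, (s j : ℤ) * o P j) ≤
      ∑ P ∈ T, ∑ j, (s j : ℤ) * o P j :=
    Finset.sum_le_sum fun P _ => Finset.inf'_le (fun s : Fin t →₀ ℕ => ∑ j, (s j : ℤ) * o P j) hs
  omega

/-- all elements of the group generated by the differences -/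
theorem gg_closure {t : ℕ} (Mo : Finset (Fin t →₀ ℕ)) (hMo : Mo.Nonempty) {v : Fin t → ℤ}
    (hv : v ∈ AddSubgroup.closure {v : Fin t → ℤ | ∃ s ∈ Mo, ∃ s' ∈ Mo,
      v = fun l => (s l : ℤ) - s' l}) :
    ∃ c : ℕ, ∀ (Q : Type) (T : Finset Q) (o : Q → Fin t → ℤ), (∀ j, ∑ P ∈ T, o P j = 0) →
      gg T o v ≤ c * (-∑ P ∈ T, Mo.inf' hMo (fun s => ∑ j, (s j : ℤ) * o P j)) := by
  induction hv using AddSubgroup.closure_induction with
  | mem x hx =>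
    obtain ⟨s, hs, s', hs', rfl⟩ := hx
    refine ⟨1, fun Q T o ho => ?_⟩
    rw [Nat.cast_one, one_mul]
    exact gg_diff T o ho Mo hMo hs hs'
  | zero =>
    refine ⟨0, fun Q T o ho => ?_⟩
    unfold gg
    simp
  | add x y _ _ hx hy =>
    obtain ⟨c, hc⟩ := hx
    obtain ⟨d, hd⟩ := hy
    refine ⟨c + d, fun Q T o ho => ?_⟩
    refine (gg_add T o x y).trans ?_
    push_cast
    rw [add_mul]
    exact add_le_add (hc Q T o ho) (hd Q T o ho)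
  | neg x _ hx =>
    obtain ⟨c, hc⟩ := hx
    refine ⟨c, fun Q T o ho => ?_⟩
    rw [gg_neg T o ho]
    exact hc Q T o ho

theorem gg_single {t : ℕ} {Q : Type} (T : Finset Q) (o : Q → Fin t → ℤ) (j : Fin t) (n : ℕ)
    (hn : 0 < n) : ∑ P ∈ T, max (-o P j) 0 ≤ gg T o (Pi.single j (n : ℤ)) := by
  unfold gg
  refine Finset.sum_le_sum fun P _ => ?_
  have h : ∑ l, (Pi.single j (n : ℤ) : Fin t → ℤ) l * o P l = n * o P j := by
    rw [Finset.sum_eq_single j]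
    · rw [Pi.single_eq_same]
    · intro l _ hl
      rw [Pi.single_eq_of_ne hl, zero_mul]
    · intro h
      exact absurd (Finset.mem_univ j) h
  rw [h]
  have h1 : (1 : ℤ) ≤ n := by exact_mod_cast hn
  rcases le_total 0 (o P j) with h2 | h2
  · rw [max_eq_right (by omega)]
    exact le_max_right _ _
  · refine max_le ?_ (le_max_right _ _)
    refine le_trans ?_ (le_max_left _ _)
    nlinarith

/-- The combinatorial bound for the sum of the heights. -/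
theorem comb {t : ℕ} (Mo : Finset (Fin t →₀ ℕ)) (hMo : Mo.Nonempty)
    (h : ∀ j : Fin t, ∃ n : ℕ, 0 < n ∧ (Pi.single j (n : ℤ) : Fin t → ℤ) ∈
      AddSubgroup.closure {v : Fin t → ℤ | ∃ s ∈ Mo, ∃ s' ∈ Mo, v = fun l => (s l : ℤ) - s' l}) :
    ∃ c : ℕ, ∀ (Q : Type) (T : Finset Q) (o : Q → Fin t → ℤ), (∀ j, ∑ P ∈ T, o P j = 0) →
      ∑ j, ∑ P ∈ T, max (-o P j) 0 ≤
        c * (-∑ P ∈ T, Mo.inf' hMo (fun s => ∑ j, (s j : ℤ) * o P j)) := by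
  have h1 : ∀ j : Fin t, ∃ c : ℕ, ∀ (Q : Type) (T : Finset Q) (o : Q → Fin t → ℤ),
      (∀ j, ∑ P ∈ T, o P j = 0) → ∑ P ∈ T, max (-o P j) 0 ≤
        c * (-∑ P ∈ T, Mo.inf' hMo (fun s => ∑ j, (s j : ℤ) * o P j)) := by
    intro j
    obtain ⟨n, hn, h2⟩ := h j
    obtain ⟨c, hc⟩ := gg_closure Mo hMo h2
    exact ⟨c, fun Q T o ho => (gg_single T o j n hn).trans (hc Q T o ho)⟩
  choose c hc using h1
  refine ⟨∑ j, c j, fun Q T o ho => ?_⟩
  push_cast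
  rw [Finset.sum_mul]
  exact Finset.sum_le_sum fun j _ => hc j Q T o ho


section

open FF Filter MvPolynomial Pool.Agent.W603.LV Pool.Agent.W603.PV Pool.Agent.W603.CZ
  Pool.Agent.Y731.FG
open scoped Classical

variable {I : Type} {𝒰 : Ultrafilter I} {k F : Type} [Field k] [IsAlgClosed k] [CharZero k]
  [Field F] {L : I → Type} [∀ i, Field (L i)] [∀ i, Algebra k (L i)] [∀ i, Algebra F (L i)]
  [∀ i, IsFF k (L i)]

omit [IsAlgClosed k] [CharZero k] [∀ i, IsFF k (L i)] [∀ i, Algebra F (L i)] in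
theorem mo_le {M : ℕ} (x : Fin M → UL 𝒰 L) (ω : Om k L) (c : Fin M) (hc : x c ≠ 0) :
    mo x ω ≤ oo (x c) ω := by
  unfold mo
  exact ciInf_le (Set.finite_range (fun c : {c // x c ≠ 0} => oo (x c.1) ω)).bddBelow ⟨c, hc⟩

omit [IsAlgClosed k] [CharZero k] [∀ i, IsFF k (L i)] [∀ i, Algebra F (L i)] in
theorem mo_eq_zero {M : ℕ} (x : Fin M → UL 𝒰 L) (ω : Om k L) (c : Fin M) (hc : x c ≠ 0)
    (h : ∀ c, x c ≠ 0 → oo (x c) ω = 0) : mo x ω = 0 := by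
  unfold mo
  have : Nonempty {c // x c ≠ 0} := ⟨⟨c, hc⟩⟩
  rw [show (fun c : {c // x c ≠ 0} => oo (x c.1) ω) = fun _ => 0 from funext fun c => h c.1 c.2]
  exact ciInf_const

omit [IsAlgClosed k] [CharZero k] [∀ i, IsFF k (L i)] [∀ i, Algebra F (L i)] in
theorem oo_mon {t : ℕ} (u : Fin t → UL 𝒰 L) (hu : ∀ j, u j ≠ 0) (s : Fin t →₀ ℕ) :
    ∀ᶠ ω in EV 𝒰 k L, oo (mon u s) ω = ∑ j, (s j : ℤ) * oo (u j) ω := by
  have h1 : ∀ j, ∀ᶠ ω in EV 𝒰 k L, oo (u j ^ s j) ω = (s j : ℤ) * oo (u j) ω :=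
    fun j => oo_pow (u j) (s j)
  filter_upwards [oo_prod Finset.univ (fun j => u j ^ s j) (fun j _ => pow_ne_zero _ (hu j)),
    eventually_all.2 h1] with ω h2 h3
  unfold mon
  rw [h2]
  exact Finset.sum_congr rfl fun j _ => h3 j

omit [Field F] [∀ i, Algebra F (L i)] in
/-- everything at one index -/
theorem at_index {t M : ℕ} (u : Fin t → UL 𝒰 L) (x : Fin M → UL 𝒰 L) (c0 : Fin M)
    (hc0 : x c0 ≠ 0) (Mo : Finset (Fin t →₀ ℕ)) (hMo : Mo.Nonempty) (c2 : ℕ)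
    (hc2 : ∀ (Q : Type) (T : Finset Q) (o : Q → Fin t → ℤ), (∀ j, ∑ P ∈ T, o P j = 0) →
      ∑ j, ∑ P ∈ T, max (-o P j) 0 ≤
        c2 * (-∑ P ∈ T, Mo.inf' hMo (fun s => ∑ j, (s j : ℤ) * o P j)))
    (e : Om k L → ℤ) (i : I) (B : ℤ) (B' ε : ℝ)
    (hB : ∀ T : Finset (Place k (L i)), ∑ P ∈ T, e ⟨i, P⟩ ≤ B)
    (hB' : ∀ T : Finset (Place k (L i)), ((∑ P ∈ T,
      (fun ω : Om k L => if ω ∈ Tu u then 0 else mo x ω) ⟨i, P⟩ : ℤ) : ℝ) ≤ ε * Hu k u i + B')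
    (he : ∀ P : Place k (L i), (⟨i, P⟩ : Om k L) ∈ Tu u →
      mo x (⟨i, P⟩ : Om k L) ≤ Mo.inf' hMo (fun s => ∑ j, (s j : ℤ) * oo (u j) (⟨i, P⟩ : Om k L)) +
        e ⟨i, P⟩) :
    (Hu k u i : ℝ) ≤ c2 * (hp k x i + ε * Hu k u i + B + B') ∧ 0 ≤ hp k x i := by
  obtain ⟨T1, hT1⟩ := exists_supp (k := k) (Finset.univ : Finset (Fin t)) (fun j => rep (u j) i)
  obtain ⟨T2, hT2⟩ := exists_supp (k := k) (Finset.univ : Finset (Fin M)) (fun c => rep (x c) i)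
  set T := T1 ∪ T2 with hT
  set T0 := T.filter (fun P => (⟨i, P⟩ : Om k L) ∈ Tu u) with hT0
  have hu0 : ∀ j, ∀ P : Place k (L i), P.ord (rep (u j) i) ≠ 0 → P ∈ T0 := by
    intro j P hP
    rw [hT0, Finset.mem_filter]
    exact ⟨Finset.mem_union_left _ (hT1 j (Finset.mem_univ _) P hP), j, hP⟩
  have hx0 : ∀ c, ∀ P : Place k (L i), P.ord (rep (x c) i) ≠ 0 → P ∈ T := by
    intro c P hP
    exact Finset.mem_union_right _ (hT2 c (Finset.mem_univ _) P hP)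
  have hsum : ∀ j, ∑ P ∈ T0, oo (u j) (⟨i, P⟩ : Om k L) = 0 := fun j =>
    sum_ord_finset (rep (u j) i) T0 (hu0 j)
  have hHu : Hu k u i = ∑ j, ∑ P ∈ T0, max (-oo (u j) (⟨i, P⟩ : Om k L)) 0 := by
    unfold Hu ht
    exact Finset.sum_congr rfl fun j _ => hgt_finset (rep (u j) i) T0 (hu0 j)
  have hhp : hp k x i = -∑ P ∈ T, mo x (⟨i, P⟩ : Om k L) := by
    unfold hp
    rw [finsum_eq_sum_of_support_subset (s := T)]
    intro P hP
    by_contra hcon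
    apply hP
    refine mo_eq_zero x _ c0 hc0 fun c _ => ?_
    by_contra h
    exact hcon (hx0 c P h)
  have hpos : 0 ≤ hp k x i := by
    rw [hhp]
    have h1 : ∑ P ∈ T, mo x (⟨i, P⟩ : Om k L) ≤ ∑ P ∈ T, P.ord (rep (x c0) i) :=
      Finset.sum_le_sum fun P _ => mo_le x ⟨i, P⟩ c0 hc0
    rw [sum_ord_finset (rep (x c0) i) T (hx0 c0)] at h1
    omega
  refine ⟨?_, hpos⟩
  have h1 := hc2 (Place k (L i)) T0 (fun P j => oo (u j) (⟨i, P⟩ : Om k L)) hsum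
  rw [← hHu] at h1
  have h2 : ∑ P ∈ T0, mo x (⟨i, P⟩ : Om k L) ≤
      ∑ P ∈ T0, Mo.inf' hMo (fun s => ∑ j, (s j : ℤ) * oo (u j) (⟨i, P⟩ : Om k L)) +
        ∑ P ∈ T0, e ⟨i, P⟩ := by
    rw [← Finset.sum_add_distrib]
    refine Finset.sum_le_sum fun P hP => he P ?_
    rw [hT0, Finset.mem_filter] at hP
    exact hP.2
  have h3 := hB T0
  have h4 : ∑ P ∈ T, mo x (⟨i, P⟩ : Om k L) = ∑ P ∈ T0, mo x (⟨i, P⟩ : Om k L) +
      ∑ P ∈ T, (fun ω : Om k L => if ω ∈ Tu u then 0 else mo x ω) ⟨i, P⟩ := by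
    rw [hT0, Finset.sum_filter, ← Finset.sum_add_distrib]
    refine Finset.sum_congr rfl fun P _ => ?_
    by_cases h : (⟨i, P⟩ : Om k L) ∈ Tu u
    · simp [h]
    · simp [h]
  have h5 := hB' T
  have h6 : -∑ P ∈ T0, Mo.inf' hMo (fun s => ∑ j, (s j : ℤ) * oo (u j) (⟨i, P⟩ : Om k L)) ≤
      hp k x i + ∑ P ∈ T, (fun ω : Om k L => if ω ∈ Tu u then 0 else mo x ω) ⟨i, P⟩ + B := by
    rw [hhp]
    linarith
  have h7 : ((-∑ P ∈ T0, Mo.inf' hMo (fun s => ∑ j, (s j : ℤ) * oo (u j) (⟨i, P⟩ : Om k L)) : ℤ)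
      : ℝ) ≤ hp k x i + ε * Hu k u i + B + B' := by
    have h8 : ((-∑ P ∈ T0, Mo.inf' hMo (fun s => ∑ j, (s j : ℤ) * oo (u j) (⟨i, P⟩ : Om k L)) : ℤ)
      : ℝ) ≤ ((hp k x i + ∑ P ∈ T, (fun ω : Om k L => if ω ∈ Tu u then 0 else mo x ω) ⟨i, P⟩ + B
        : ℤ) : ℝ) := by exact_mod_cast h6
    rw [Int.cast_add, Int.cast_add] at h8
    linarith
  have h9 : (Hu k u i : ℝ) ≤ ((c2 * (-∑ P ∈ T0, Mo.inf' hMo
      (fun s => ∑ j, (s j : ℤ) * oo (u j) (⟨i, P⟩ : Om k L))) : ℤ) : ℝ) := by exact_mod_cast h1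
  rw [Int.cast_mul, Int.cast_natCast] at h9
  exact h9.trans (mul_le_mul_of_nonneg_left h7 (Nat.cast_nonneg c2))

/-- The heights of the units are bounded by the height of the point. -/
theorem htS (Δ : Dt 𝒰 k F L) (hLOW : S_LOW Δ) (hC : S_C Δ) (hCP : S_CP Δ) : S_HT Δ := by
  intro t u hu M y hy hirr hspn
  obtain ⟨c0, hc0⟩ := hy
  have hu0 : ∀ j, u j ≠ 0 := fun j => (hu.1 j).1
  have hinj : ∀ f : MvPolynomial (Fin t) Δ.E, f ≠ 0 → aeval u f ≠ 0 := by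
    intro f hf h
    exact hf (hu.2 (by rw [h, map_zero]))
  -- the exponents
  set Mo : Finset (Fin t →₀ ℕ) := Finset.univ.biUnion fun c => (y c).support with hMoD
  have hmem : ∀ s, s ∈ Mo ↔ ∃ c, s ∈ (y c).support := by
    intro s
    rw [hMoD, Finset.mem_biUnion]
    simp
  have hMo : Mo.Nonempty := by
    obtain ⟨s, hs⟩ := (support_nonempty (p := y c0)).2 hc0
    exact ⟨s, (hmem s).2 ⟨c0, hs⟩⟩
  have hD : {v : Fin t → ℤ | ∃ s ∈ Mo, ∃ s' ∈ Mo, v = fun l => (s l : ℤ) - s' l} =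
      {v : Fin t → ℤ | ∃ c c' s s', s ∈ (y c).support ∧ s' ∈ (y c').support ∧
        v = fun l => (s l : ℤ) - s' l} := by
    ext v
    constructor
    · rintro ⟨s, hs, s', hs', hv⟩
      obtain ⟨c, hc⟩ := (hmem s).1 hs
      obtain ⟨c', hc'⟩ := (hmem s').1 hs'
      exact ⟨c, c', s, s', hc, hc', hv⟩
    · rintro ⟨c, c', s, s', hs, hs', hv⟩
      exact ⟨s, (hmem s).2 ⟨c, hs⟩, s', (hmem s').2 ⟨c', hs'⟩, hv⟩
  obtain ⟨c2, hc2⟩ := comb Mo hMo (by rw [hD]; exact hspn)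
  -- the places where some `u j` is not a unit
  have h1 : ∀ c, ∃ e : Om k L → ℤ, Bd 𝒰 Δ.χ e ∧ ∀ᶠ ω in EV 𝒰 k L, ω ∈ Tu u →
      ∀ s ∈ (y c).support, oo (aeval u (y c)) ω ≤ oo (mon u s) ω + e ω := by
    intro c
    by_cases hyc : y c = 0
    · refine ⟨fun _ => 0, Bd.zero Δ.nonneg, Eventually.of_forall fun ω _ s hs => ?_⟩
      rw [hyc, support_zero] at hs
      exact absurd hs (Finset.notMem_empty s)
    · exact hC t u hu (y c) hyc
  choose e he1 he2 using h1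
  have hE : Bd 𝒰 Δ.χ (fun ω => ∑ c : Fin M, max (e c ω) 0) :=
    Bd.sum Δ.nonneg Finset.univ fun c _ => (he1 c).pos
  have hmon : ∀ᶠ ω in EV 𝒰 k L, ∀ s ∈ Mo, oo (mon u s) ω = ∑ j, (s j : ℤ) * oo (u j) ω :=
    (Finset.eventually_all Mo).2 fun s _ => oo_mon u hu0 s
  have h2 : ∀ᶠ ω in EV 𝒰 k L, ω ∈ Tu u → mo (fun c => aeval u (y c)) ω ≤
      Mo.inf' hMo (fun s => ∑ j, (s j : ℤ) * oo (u j) ω) + ∑ c : Fin M, max (e c ω) 0 := by
    filter_upwards [hmon, eventually_all.2 he2] with ω h3 h4 hω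
    obtain ⟨s, hs, h5⟩ := Mo.exists_mem_eq_inf' hMo (fun s => ∑ j, (s j : ℤ) * oo (u j) ω)
    rw [h5, ← h3 s hs]
    obtain ⟨c, hc⟩ := (hmem s).1 hs
    have hyc : y c ≠ 0 := by
      intro h
      rw [h, support_zero] at hc
      exact absurd hc (Finset.notMem_empty s)
    have h6 := mo_le (fun c => aeval u (y c)) ω c (hinj _ hyc)
    have h7 := h4 c hω s hc
    have h8 : max (e c ω) 0 ≤ ∑ c : Fin M, max (e c ω) 0 :=
      Finset.single_le_sum (f := fun c => max (e c ω) 0) (fun _ _ => le_max_right _ _)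
        (Finset.mem_univ c)
    have h9 := le_max_left (e c ω) 0
    linarith
  obtain ⟨B, hB⟩ := hE
  have hε : (0 : ℝ) < 1 / (2 * ((c2 : ℝ) + 1)) := by positivity
  obtain ⟨B', hB'⟩ := hCP t u hu M y ⟨c0, hc0⟩ hirr _ hε
  obtain ⟨c, hc⟩ := exists_nat_ge (2 * (c2 : ℝ) * (1 + max (B + B') 0))
  refine ⟨c, ?_⟩
  filter_upwards [hB, hB', ev_iff.1 h2, Δ.nonneg] with i h3 h4 h5 h6
  obtain ⟨h7, h8⟩ := at_index u (fun c => aeval u (y c)) c0 (hinj _ hc0) Mo hMo c2 hc2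
    (fun ω => ∑ c : Fin M, max (e c ω) 0) i (B * Δ.χ i) (B' * Δ.χ i) _ h3 h4 h5
  have h9 : (c2 : ℝ) * (1 / (2 * ((c2 : ℝ) + 1))) ≤ 1 / 2 := by
    rw [mul_one_div, div_le_div_iff₀ (by positivity) (by norm_num)]
    linarith
  have h10 : (0 : ℝ) ≤ Hu k u i := by exact_mod_cast Hu_nonneg u i
  have h11 : (0 : ℝ) ≤ hp k (fun c => aeval u (y c)) i := by exact_mod_cast h8
  have h12 : (0 : ℝ) ≤ Δ.χ i := by exact_mod_cast h6
  have h13 : (Hu k u i : ℝ) ≤ c * (hp k (fun c => aeval u (y c)) i + Δ.χ i) := by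
    push_cast at h7
    set H : ℝ := (Hu k u i : ℝ) with hH
    set p : ℝ := (hp k (fun c => aeval u (y c)) i : ℝ) with hpp
    set X : ℝ := (Δ.χ i : ℝ) with hX
    set C : ℝ := (c2 : ℝ) with hCC
    have hC0 : 0 ≤ C := Nat.cast_nonneg c2
    set m : ℝ := max ((B : ℝ) + B') 0 with hm
    have hm1 : (B : ℝ) + B' ≤ m := le_max_left _ _
    have hm0 : 0 ≤ m := le_max_right _ _
    have h14 : C * (1 / (2 * (C + 1)) * H) ≤ 1 / 2 * H := by
      rw [← mul_assoc]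
      exact mul_le_mul_of_nonneg_right h9 h10
    have h15 : H ≤ 2 * C * (p + (B + B') * X) := by
      have : C * (p + 1 / (2 * (C + 1)) * H + B * X + B' * X) =
        C * (1 / (2 * (C + 1)) * H) + C * (p + (B + B') * X) := by ring
      rw [this] at h7
      linarith
    have h16 : (B + B') * X ≤ m * X := mul_le_mul_of_nonneg_right hm1 h12
    have h17 : p + (B + B') * X ≤ (1 + m) * (p + X) := by
      have h18 := mul_nonneg hm0 h11
      nlinarith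
    calc H ≤ 2 * C * (p + (B + B') * X) := h15
      _ ≤ 2 * C * ((1 + m) * (p + X)) := mul_le_mul_of_nonneg_left h17 (by positivity)
      _ = 2 * C * (1 + m) * (p + X) := by ring
      _ ≤ c * (p + X) := mul_le_mul_of_nonneg_right hc (by linarith)
  exact_mod_cast h13

end

end Pool.Agent.Y430.FG
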